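import Pool.Agent.X145.RC.Main

/-!
# Hitting probabilities of arbitrary boundary sets in rectangles

Critical bond percolation (`p = 1/2`) on the square lattice in the rectangle `[0, w] × [0, h]`,
`h ≤ κ w` (the rectangle may be as long as one likes). The exploration path of the rectangle whose
left side is wired and whose three other sides are dual-wired (from one end of the left side to the
other) visits the vertex `(w, t)` of the right side if and only if `(w, t)` is joined to the left
side by an open path of the rectangle. More generally one may wire any subset `S` of the left side.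

For ALL subsets `T` of the middle part of the right side, the probability that the exploration path
visits `T` is comparable with `P (crossing) * cap T`, and for ALL subsets `S`, `T` of the middle
parts of the two sides, the probability that an open path of the rectangle joins `S` to `T` is
comparable with `P (crossing) * cap S * cap T`. Here `cap` is the capacity for the kernel
`((h + 1) / (|x - y| + 1)) ^ (1/3)`, the (lattice) Riesz capacity of exponent `1/3`, as SLE(6)
predicts (its boundary set has dimension `2/3`); the constants depend on `κ` only: not on the size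
of the rectangle, on its length, on the sets.

The connection probabilities (both bounds) are those of `Pool.Agent.TH966.CC` (starting files).
-/

set_option autoImplicit false

namespace Pool.Agent.Results.MP_fe58d8_pr.BoundarySetsRectangle

open MeasureTheory

/-- The square lattice: two points of `ℤ²` are adjacent when they differ by one in exactly one
coordinate. -/
def Z2 : SimpleGraph (ℤ × ℤ) where
  Adj u v := |u.1 - v.1| + |u.2 - v.2| = 1
  symm := ⟨fun u v h => by rw [abs_sub_comm v.1, abs_sub_comm v.2]; exact h⟩
  loopless := ⟨fun u h => by simp at h⟩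

/-- Critical bond percolation: every edge of the square lattice is open (`true`) with
probability `1/2`, independently of the other edges. -/
noncomputable def crit : Measure (Z2.edgeSet → Bool) :=
  Measure.infinitePi (fun _ => ProbabilityTheory.bernoulliMeasure true false
    ⟨1/2, by norm_num, by norm_num⟩)

/-- The graph of the open edges. -/
def openGraph (ω : Z2.edgeSet → Bool) : SimpleGraph (ℤ × ℤ) :=
  SimpleGraph.fromEdgeSet {e | ∃ h : e ∈ Z2.edgeSet, ω ⟨e, h⟩ = true}

/-- The probability that an open path of the rectangle `[0, w] × [0, h]` joins a vertex `(0, s)`,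
`s ∈ S`, of the left side to a vertex `(w, t)`, `t ∈ T`, of the right side: the probability that
the exploration path, started with the set `S` of the left side wired and the rest of the boundary
dual-wired, visits the set `T` of the right side. -/
noncomputable def joined (w h : ℤ) (S T : Set ℤ) : ℝ :=
  crit.real {ω | ∃ s ∈ S, ∃ t ∈ T, ∃ p : (openGraph ω).Walk (0, s) (w, t),
    ∀ v ∈ p.support, (0 ≤ v.1 ∧ v.1 ≤ w) ∧ (0 ≤ v.2 ∧ v.2 ≤ h)}

/-- The kernel `((h + 1) / (|x - y| + 1)) ^ (1/3)`. -/
noncomputable def kernel (h x y : ℤ) : ℝ :=
  (((h : ℝ) + 1) / (((|x - y| : ℤ) : ℝ) + 1)) ^ ((1 : ℝ) / 3)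

/-- The energy of a weight `v` on the finite set `S`. -/
noncomputable def energy (h : ℤ) (S : Finset ℤ) (v : ℤ → ℝ) : ℝ :=
  ∑ x ∈ S, ∑ y ∈ S, v x * v y * kernel h x y

/-- The capacity of `S`: the supremum of `1 / energy` over all probability weights on `S`. -/
noncomputable def capacity (h : ℤ) (S : Finset ℤ) : ℝ :=
  sSup {r | ∃ v : ℤ → ℝ, (∀ x ∈ S, 0 ≤ v x) ∧ ∑ x ∈ S, v x = 1 ∧ r = 1 / energy h S v}

theorem result (κ : ℕ) (hκ : 1 ≤ κ) : ∃ c C : ℝ, 0 < c ∧ 0 < C ∧ ∀ w h : ℤ, 1 ≤ w → 1 ≤ h →
    h ≤ κ * w → ∀ T : Finset ℤ, (∀ x ∈ T, h ≤ κ * x ∧ h ≤ κ * (h - x)) →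
    (c * (joined w h (Set.Icc 0 h) (Set.Icc 0 h) * capacity h T) ≤ joined w h (Set.Icc 0 h) ↑T ∧
      joined w h (Set.Icc 0 h) ↑T ≤
        C * (joined w h (Set.Icc 0 h) (Set.Icc 0 h) * capacity h T)) ∧
    ∀ S : Finset ℤ, (∀ x ∈ S, h ≤ κ * x ∧ h ≤ κ * (h - x)) →
      c * (joined w h (Set.Icc 0 h) (Set.Icc 0 h) * capacity h S * capacity h T) ≤
        joined w h ↑S ↑T ∧
      joined w h ↑S ↑T ≤
        C * (joined w h (Set.Icc 0 h) (Set.Icc 0 h) * capacity h S * capacity h T) :=
  Pool.Agent.X145.RC.main κ hκ

end Pool.Agent.Results.MP_fe58d8_pr.BoundarySetsRectangle
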