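import Pool.Agent.X145.EV.Var

/-!
# Exact variation of the exploration path

Critical bond percolation on `δ ℤ²` in a rectangle `D = (-A, B) × (0, H)`, with the counterclockwise
boundary arc from `a = t + i H` to `b = 0` wired and the other one dual-wired. The exploration path
is parametrised by its number of steps: `Rect.curve` is the piecewise linear curve on `[0, 1]` run
at constant speed, and `Rect.time` is the number of steps times `δ ^ (7/4)`; `Rect.law` is the law
of (curve, time). Weak limits exist along a subsequence of every sequence of meshes.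

Let `ψ(x) = x ^ (7/4) / (max 1 (log log (1/x))) ^ (3/4)`. There are universal constants `c, C > 0`
such that for every rectangle and every weak limit `(f, T)`, almost surely, the `ψ`-variation of the
curve (the limit, as the mesh of the partitions tends to `0`, of the supremum of the sums
`∑ ψ(|f (τ i) - f (τ (i + 1))|)`) on EVERY interval `[s, t]` is between `c T (t - s)` and
`C T (t - s)`. Hence `ψ` is the exact gauge of the variation: the variation with respect to every
gauge `g` with `g / ψ → ∞` at `0` is infinite on every interval (for instance the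
`7/4`-variation), and it is zero if `g / ψ → 0`. This is the analogue for the exploration path of
Taylor's theorem on the exact variation of the Brownian motion, with the natural time in the place
of the time. As the variation depends only on the curve modulo increasing reparametrisation
(`variation_comp`, restated in the last part of the theorem), the natural time of the limit is, up
to universal constants, determined by the curve modulo reparametrisation.

Definitions: `Pool.Agent.H984R4.NP.Model` (`Rect`, `pos`, `clamp`, `pl`, `X`, `Rect.dm`,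
`Rect.curve`, `Rect.time`, `Rect.law`), `Pool.Agent.H984R4.NP.Defs` (`Dm`, `Dm.edges`, `Dm.wir`,
`Dm.cfg`, `Dm.walk`, `Dm.len`) and `Pool.Agent.H984R3.Per.Defs` (states, `ae`, `mv`, `rt`, `nxt`,
`orb`). `psi` and `variation` are defined below.

The plan of the proof and the lattice estimates are those of project EV (helper41 with helpers 287,
490, 758, 858, 864, 941, 988; `Pool.Agent.Y41.EV`), whose deterministic and almost sure parts
(`Pool.Agent.X145.EV`: the tree of the fast pairs, the scales, the upper bound for the sums, the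
passage to the limit) are new.
-/

set_option autoImplicit false

namespace Pool.Agent.Results.MP_fe58d8_pr.ExactVariation

open H984N MeasureTheory Filter Topology
open scoped ENNReal

/-- `ψ(x) = x ^ (7/4) / (max 1 (log log (1/x))) ^ (3/4)` -/
noncomputable def psi (x : ℝ) : ℝ :=
  x ^ (7/4 : ℝ) / (max 1 (Real.log (Real.log (1 / x)))) ^ (3/4 : ℝ)

/-- The variation of the curve `f` on `[s, t]` with respect to the gauge `g`: the limit, as
`η → 0`, of the supremum of the sums `∑ g (|f (τ i) - f (τ (i + 1))|)` over the partitions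
`s = τ 0 ≤ τ 1 ≤ ... ≤ τ n = t` of mesh at most `η`. -/
noncomputable def variation (g : ℝ → ℝ) (f : C(unitInterval, ℂ)) (s t : unitInterval) : ℝ≥0∞ :=
  ⨅ η : ℝ, ⨅ _ : 0 < η, ⨆ n : ℕ, ⨆ τ : ℕ → unitInterval,
    ⨆ _ : Monotone τ ∧ τ 0 = s ∧ τ n = t ∧ ∀ i < n, (τ (i + 1) : ℝ) - τ i ≤ η,
    ENNReal.ofReal (∑ i ∈ Finset.range n, g (dist (f (τ i)) (f (τ (i + 1)))))

theorem result :
    (∃ c C : ℝ, 0 < c ∧ 0 < C ∧ ∀ R : Rect,
      (∀ δ : ℕ → ℝ, (∀ i, 0 < δ i) → Tendsto δ atTop (𝓝 0) →
        ∃ φ : ℕ → ℕ, StrictMono φ ∧ ∃ μ : ProbabilityMeasure X,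
          Tendsto (fun i => R.law (δ (φ i))) atTop (𝓝 μ)) ∧
      ∀ δ : ℕ → ℝ, (∀ i, 0 < δ i) → Tendsto δ atTop (𝓝 0) → ∀ μ : ProbabilityMeasure X,
        Tendsto (fun i => R.law (δ i)) atTop (𝓝 μ) →
        ∀ᵐ p ∂(μ : Measure X), 0 < p.2 ∧
          (∀ s t : unitInterval, s ≤ t →
            ENNReal.ofReal (c * p.2 * ((t : ℝ) - s)) ≤ variation psi p.1 s t ∧
            variation psi p.1 s t ≤ ENNReal.ofReal (C * p.2 * ((t : ℝ) - s))) ∧
          (∀ s t : unitInterval, s < t → variation (fun x => x ^ (7/4 : ℝ)) p.1 s t = ⊤) ∧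
          (∀ g : ℝ → ℝ, g 0 = 0 → Tendsto (fun x => g x / psi x) (𝓝[>] 0) atTop →
            ∀ s t : unitInterval, s < t → variation g p.1 s t = ⊤) ∧
          (∀ g : ℝ → ℝ, g 0 = 0 → Tendsto (fun x => g x / psi x) (𝓝[>] 0) (𝓝 0) →
            ∀ s t : unitInterval, variation g p.1 s t = 0)) ∧
    (∀ (g : ℝ → ℝ) (f : C(unitInterval, ℂ)) (h : unitInterval ≃o unitInterval)
      (s t : unitInterval), variation g (f.comp ⟨h, h.continuous⟩) s t =
        variation g f (h s) (h t)) := by
  refine ⟨?_, Pool.Agent.X145.EV.variation_comp⟩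
  obtain ⟨c, C, c', C', hc, hC, -, -, h⟩ := Pool.Agent.X145.EV.ev_top
  refine ⟨c, C, hc, hC, fun R => ⟨(h R).1, fun δ hδ hlim μ hμ => ?_⟩⟩
  filter_upwards [(h R).2 δ hδ hlim μ hμ] with p hp
  obtain ⟨hT, hU, hL, -, -⟩ := hp
  refine ⟨hT, fun s t hst => Pool.Agent.X145.EV.var_of hU hL hst, fun s t hst => ?_,
    fun g hg0 hg s t hst => Pool.Agent.X145.EV.var_top hT hc hL hg0 hg hst,
    fun g hg0 hg s t => Pool.Agent.X145.EV.var_zero hT hC hU hg0 hg s t⟩
  have h0 : (fun x : ℝ => x ^ (7/4 : ℝ)) 0 = 0 := by
    show (0:ℝ) ^ (7/4 : ℝ) = 0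
    exact Real.zero_rpow (by norm_num)
  exact Pool.Agent.X145.EV.var_top (g := fun x : ℝ => x ^ (7/4 : ℝ)) hT hc hL h0
    Pool.Agent.X145.EV.tendsto_74 hst

end Pool.Agent.Results.MP_fe58d8_pr.ExactVariation
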