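import Pool.Agent.X145.LC.Main

/-!
# Where does the exploration path of critical bond percolation on `ℤ²` first visit a half-line?

Critical bond percolation (`p = 1/2`) on the closed upper half-plane `ℤ × ℕ` of the square lattice,
the boundary arc `(-∞, -N]` wired, the rest of the boundary dual-wired. The exploration path starts
at `-N` and follows the boundary of the union of the open clusters attached to `(-∞, -N]`: it visits
the boundary vertex `(k, 0)` if and only if `(k, 0)` is joined to `(-∞, -N]` by an open path of the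
half-plane. Let `X_N` be the first vertex of the half-axis `[0, ∞)` that it visits.

* Almost surely `X_N` exists.
* Pointwise law: `P (X_N = k) ≍ N ^ (1/3) / ((k + 1) ^ (2/3) (N + k) ^ (2/3))`, uniformly in `N ≥ 1`
  and `k ≥ 0`.
* `P (k ≤ X_N ≤ l) ≍ F ((l + 1) / (N + l + 1)) - F (k / (N + k))` uniformly in `N ≥ 1` and
  `0 ≤ k ≤ l`, where `F` is Cardy's function: the increments of Cardy's formula, for all
  intervals, as short as the mesh and as close to the end points of the arcs as one likes.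
* For the path started at distance `a n` from the half-axis, the probability that the first visited
  point is in `(b n, b' n]` is between constant multiples of the SLE(6) value
  `F (b' / (a + b')) - F (b / (a + b))` for all large `n`, for all `a > 0`, `0 ≤ b < b'`.

The proof is in `Pool.Agent.H985R6.LC` (starting files, project of helper985 with others; it is
assembled and used here for the first time).
-/

set_option autoImplicit false

namespace Pool.Agent.Results.MP_fe58d8_pr.FirstVisitLaw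

open MeasureTheory Filter Topology

/-- The square lattice: two points of `ℤ²` are adjacent when they differ by one in exactly one
coordinate. -/
def Z2 : SimpleGraph (ℤ × ℤ) where
  Adj u v := |u.1 - v.1| + |u.2 - v.2| = 1
  symm := ⟨fun u v h => by rw [abs_sub_comm v.1, abs_sub_comm v.2]; exact h⟩
  loopless := ⟨fun u h => by simp at h⟩

/-- Critical bond percolation: every edge of the square lattice is open (`true`) with
probability `1/2`, independently of the other edges. -/
noncomputable def crit : Measure (Z2.edgeSet → Bool) :=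
  Measure.infinitePi (fun _ => ProbabilityTheory.bernoulliMeasure true false
    ⟨1/2, by norm_num, by norm_num⟩)

/-- The graph of the open edges. -/
def openGraph (ω : Z2.edgeSet → Bool) : SimpleGraph (ℤ × ℤ) :=
  SimpleGraph.fromEdgeSet {e | ∃ h : e ∈ Z2.edgeSet, ω ⟨e, h⟩ = true}

/-- The exploration path started at `-N` (boundary wired on `(-∞, -N]`, dual-wired on `(-N, ∞)`)
visits the boundary vertex `(k, 0)`: an open path of the closed upper half-plane joins `(k, 0)` to
the wired arc. -/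
def Visits (N : ℤ) (ω : Z2.edgeSet → Bool) (k : ℤ) : Prop :=
  ∃ x : ℤ, x ≤ -N ∧ ∃ p : (openGraph ω).Walk (x, 0) (k, 0), ∀ v ∈ p.support, 0 ≤ v.2

/-- `(k, 0)` is the first vertex of the half-axis `[0, ∞)` visited by the exploration path started
at `-N`. -/
def FirstVisit (N : ℤ) (ω : Z2.edgeSet → Bool) (k : ℤ) : Prop :=
  0 ≤ k ∧ Visits N ω k ∧ ∀ j : ℤ, 0 ≤ j → j < k → ¬ Visits N ω j

/-- Cardy's function. -/
noncomputable def cardy (x : ℝ) : ℝ :=
  (∫ u in (0 : ℝ)..x, u ^ (-(2/3) : ℝ) * (1 - u) ^ (-(2/3) : ℝ)) /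
    ∫ u in (0 : ℝ)..1, u ^ (-(2/3) : ℝ) * (1 - u) ^ (-(2/3) : ℝ)

theorem result :
    (∀ N : ℤ, 1 ≤ N → ∀ᵐ ω ∂crit, ∃ k : ℤ, FirstVisit N ω k) ∧
    ∃ c C : ℝ, 0 < c ∧ 0 < C ∧
      (∀ N k : ℤ, 1 ≤ N → 0 ≤ k →
        c * ((N : ℝ) ^ (1/3 : ℝ) / (((k : ℝ) + 1) ^ (2/3 : ℝ) * ((N : ℝ) + k) ^ (2/3 : ℝ))) ≤
          crit.real {ω | FirstVisit N ω k} ∧
        crit.real {ω | FirstVisit N ω k} ≤
          C * ((N : ℝ) ^ (1/3 : ℝ) / (((k : ℝ) + 1) ^ (2/3 : ℝ) * ((N : ℝ) + k) ^ (2/3 : ℝ)))) ∧
      (∀ N k l : ℤ, 1 ≤ N → 0 ≤ k → k ≤ l →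
        c * (cardy (((l : ℝ) + 1) / ((N : ℝ) + (l + 1))) - cardy ((k : ℝ) / ((N : ℝ) + k))) ≤
          crit.real {ω | ∃ j : ℤ, k ≤ j ∧ j ≤ l ∧ FirstVisit N ω j} ∧
        crit.real {ω | ∃ j : ℤ, k ≤ j ∧ j ≤ l ∧ FirstVisit N ω j} ≤
          C * (cardy (((l : ℝ) + 1) / ((N : ℝ) + (l + 1))) - cardy ((k : ℝ) / ((N : ℝ) + k)))) ∧
      (∀ a b b' : ℝ, 0 < a → 0 ≤ b → b < b' → ∀ᶠ n : ℕ in atTop,
        c * (cardy (b' / (a + b')) - cardy (b / (a + b))) ≤
          crit.real {ω | ∃ j : ℤ, b * n < j ∧ j ≤ b' * n ∧ FirstVisit ⌈a * n⌉ ω j} ∧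
        crit.real {ω | ∃ j : ℤ, b * n < j ∧ j ≤ b' * n ∧ FirstVisit ⌈a * n⌉ ω j} ≤
          C * (cardy (b' / (a + b')) - cardy (b / (a + b)))) :=
  Pool.Agent.X145.LC.main

end Pool.Agent.Results.MP_fe58d8_pr.FirstVisitLaw
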