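import Pool.Agent.X145.TT.Main

/-!
# Laws of the iterated logarithm for the exploration path at typical times

Critical bond percolation on `δ ℤ²` in a rectangle `D = (-A, B) × (0, H)`, with the counterclockwise
boundary arc from `a = t + i H` to `b = 0` wired and the other one dual-wired. The exploration path
is parametrised by its number of steps: `Rect.curve` is the piecewise linear curve on `[0, 1]` run
at constant speed, and `Rect.time` is the number of steps times `δ ^ (7/4)`; `Rect.law` is the law
of (curve, time). Weak limits exist along a subsequence of every sequence of meshes.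

There are universal constants `c, C > 0` such that for every rectangle and every weak limit
`p = (f, T)`, almost surely, at almost every time `t`:

* (law of the iterated logarithm) `|f s - f t| ≤ C h ^ (4/7) (log log (1/h)) ^ (3/7)` with
  `h = T |s - t|` for all `s` close to `t`, and the same with `c` and the reverse inequality for
  times `s` arbitrarily close to `t`;
* (Chung type bound) for small `h`, every time interval of natural length at least `h` which
  contains `t` contains a time `s` with `|f s - f t| ≥ c h ^ (4/7) / (log log (1/h)) ^ (1/14)`;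
* (the occupation measure) for small `r` the natural time which the WHOLE curve spends in the disc
  of radius `r` around `f t` is at most `C r ^ (7/4) (log log (1/r)) ^ (1/8)` and at least
  `c r ^ (7/4) / (log log (1/r)) ^ (3/4)`, and it is at least
  `c r ^ (7/4) (log log (1/r)) ^ (1/8)` for arbitrarily small `r`.

So the upper rates of the displacement and of the occupation time at typical times are exact up to
constants. They differ from the uniform rates (`ExactModulus`, `ExactOccupation`), where
`log log` is replaced by `log`.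

Definitions: `Pool.Agent.H984R4.NP.Model` (`Rect`, `pos`, `clamp`, `pl`, `X`, `Rect.dm`,
`Rect.curve`, `Rect.time`, `Rect.law`), `Pool.Agent.H984R4.NP.Defs` (`Dm`, `Dm.edges`, `Dm.wir`,
`Dm.cfg`, `Dm.walk`, `Dm.len`) and `Pool.Agent.H984R3.Per.Defs` (states, `ae`, `mv`, `rt`, `nxt`,
`orb`). `ll`, `phi`, `occ` are defined below.

The lattice estimates are those of the starting results `HausdorffGauge` (`MP_216314_pr`) and
`FastTimes` (`MP_b3e76a_pr`) and of `ExactVariation` in this folder; the density argument for the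
lower rate of the occupation time, the Chung type bound and the lower bound for the occupation time
(`Pool.Agent.X145.TT`) are new.
-/

set_option autoImplicit false

namespace Pool.Agent.Results.MP_fe58d8_pr.TypicalTimes

open H984N MeasureTheory Filter Topology

/-- `max 1 (log log (1/x))` -/
noncomputable def ll (x : ℝ) : ℝ := max 1 (Real.log (Real.log (1 / x)))

/-- `φ(x) = x ^ (4/7) (log log (1/x)) ^ (3/7)` -/
noncomputable def phi (x : ℝ) : ℝ := x ^ (4/7 : ℝ) * ll x ^ (3/7 : ℝ)

/-- The natural time which the curve `p = (f, T)` spends in the disc of radius `r` around `f t`. -/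
noncomputable def occ (p : X) (t : unitInterval) (r : ℝ) : ℝ :=
  p.2 * (volume {u : unitInterval | dist (p.1 u) (p.1 t) ≤ r}).toReal

theorem result : ∃ c C : ℝ, 0 < c ∧ 0 < C ∧ ∀ R : Rect,
    (∀ δ : ℕ → ℝ, (∀ i, 0 < δ i) → Tendsto δ atTop (𝓝 0) →
      ∃ φ : ℕ → ℕ, StrictMono φ ∧ ∃ μ : ProbabilityMeasure X,
        Tendsto (fun i => R.law (δ (φ i))) atTop (𝓝 μ)) ∧
    ∀ δ : ℕ → ℝ, (∀ i, 0 < δ i) → Tendsto δ atTop (𝓝 0) → ∀ μ : ProbabilityMeasure X,
      Tendsto (fun i => R.law (δ i)) atTop (𝓝 μ) →
      ∀ᵐ p ∂(μ : Measure X), 0 < p.2 ∧ ∀ᵐ t : unitInterval,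
        (∀ᶠ s : unitInterval in 𝓝 t,
          dist (p.1 s) (p.1 t) ≤ C * phi (p.2 * |(s : ℝ) - t|)) ∧
        (∃ᶠ s : unitInterval in 𝓝 t,
          c * phi (p.2 * |(s : ℝ) - t|) < dist (p.1 s) (p.1 t)) ∧
        (∀ᶠ h in 𝓝[>] (0:ℝ), ∀ u v : unitInterval, u ≤ t → t ≤ v → h ≤ p.2 * ((v : ℝ) - u) →
          ∃ s : unitInterval, u ≤ s ∧ s ≤ v ∧
            c * (h ^ (4/7 : ℝ) / Real.log (Real.log (1 / h)) ^ (1/14 : ℝ)) ≤
              dist (p.1 s) (p.1 t)) ∧
        (∀ᶠ r in 𝓝[>] (0:ℝ),
          c * (r ^ (7/4 : ℝ) / Real.log (Real.log (1 / r)) ^ (3/4 : ℝ)) ≤ occ p t r ∧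
          occ p t r ≤ C * (r ^ (7/4 : ℝ) * Real.log (Real.log (1 / r)) ^ (1/8 : ℝ))) ∧
        (∃ᶠ r in 𝓝[>] (0:ℝ),
          c * (r ^ (7/4 : ℝ) * Real.log (Real.log (1 / r)) ^ (1/8 : ℝ)) ≤ occ p t r) := by
  obtain ⟨c, C, hc, hC, h⟩ := Pool.Agent.X145.TT.tt_top
  refine ⟨c, C, hc, hC, fun R => ⟨(h R).1, fun δ hδ hlim μ hμ => ?_⟩⟩
  filter_upwards [(h R).2 δ hδ hlim μ hμ] with p hp
  refine ⟨hp.1, ?_⟩
  filter_upwards [hp.2] with t ht
  obtain ⟨h1, h2, h3, h4, h5, h6⟩ := ht
  exact ⟨h1, h2, h5, h6.and h3, h4⟩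

end Pool.Agent.Results.MP_fe58d8_pr.TypicalTimes
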